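import Pool.Agent.Work.MP_06ac62_an.F1

/-!
Problem MP_06ac62_an, Q1: the exact value `C_∞ = -2`.
-/

namespace Pool.Agent.Results.MP_06ac62_an.CInfinity

open Pool.Agent.Work.MP_06ac62_an

/-- `C_∞ = -2`. -/
theorem result : Cinf = ((-2 : ℝ) : EReal) := Cinf_eq

end Pool.Agent.Results.MP_06ac62_an.CInfinity
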