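import Pool.Agent.Work.MP_06ac62_an.F2

/-!
Problem MP_06ac62_an, Q2: `C(λ) / log λ` tends to `-2` as `λ → ∞`.
-/

open Filter Topology

namespace Pool.Agent.Results.MP_06ac62_an.CLambdaLimit

open Pool.Agent.Work.MP_06ac62_an

/-- `lim C(λ) / log λ = -2` as `λ → ∞`; in particular the lower and the upper limit are both
equal to `-2`. -/
theorem result :
    Tendsto (fun lam : ℝ => Cval lam / ((Real.log lam : ℝ) : EReal)) atTop
      (𝓝 ((-2 : ℝ) : EReal)) ∧
    liminf (fun lam : ℝ => Cval lam / ((Real.log lam : ℝ) : EReal)) atTop = ((-2 : ℝ) : EReal) ∧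
    limsup (fun lam : ℝ => Cval lam / ((Real.log lam : ℝ) : EReal)) atTop = ((-2 : ℝ) : EReal) :=
  ⟨tendsto_Cval, tendsto_Cval.liminf_eq, tendsto_Cval.limsup_eq⟩

end Pool.Agent.Results.MP_06ac62_an.CLambdaLimit
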